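import Pool.Agent.W5h29.AS.Inf

/-!
# The rank part of the conjecture of Birch and Swinnerton-Dyer over all the number fields inside an
# infinite extension, for an exact proportion of the curves

`E_D : y² + D y = x³` over `ℚ` (`3`-isogenous to `x³ + y³ = D`).  `M` is any finite set of primes `≡ 1`
modulo `9`, `n = #M`.  `D` runs through the squarefree numbers, prime to `3` and to `M`, not `±1` modulo
`9`, that are divisible by exactly one prime `2` modulo `3`.  The proportion of the `D` for which all the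
`3 ^ n` cubic twists of `E_D` by the products of the elements of `M` have finitely many rational points and
trivial `Ш[3^∞]` tends exactly to `c ^ {3 ^ n}`, `c = ∏_{i ≥ 1} (1 - 3^{-i}) = 0.5601...`.

For EACH of these `D` there is an infinite set `Q` of primes `≡ 1` modulo `9`, containing `M`, such that for
EVERY number field `F` contained in the infinite extension `Ω_Q = ℚ(ω, ∛l : l ∈ Q)` of `ℚ` (Galois over
`ℚ` or not, containing `ω` or not, for example `ℚ(∛(l l'²))`, `ℚ(∛(l l'), ∛(l' l''))` or `ℚ(ω, ∛l, ∛l')`):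
the Hasse-Weil `L`-function `L(E_D / F, s)` (all Euler factors, from minimal models) has a meromorphic
continuation to `ℂ` that is analytic and not zero at `s = 1`, and `E_D(F)` is finite.

The proof.  Let `K = ℚ(ω)`.  By Kummer theory every field between `K` and `K(∛l : l ∈ M ∪ S)` is generated
over `K` by cube roots of rational integers `∏ l^{a_l}` with linearly independent vectors `a` of exponents
modulo `3` (`W5h29/AS/Kum`).  For `F` without `ω` the field `F(ω)` is such a field, and the places of `F`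
above a prime `p` are counted with the decomposition in `F(ω)`; the Euler product over `F` is the product of
the `L`-functions of the twists `D ∏ l^{t_l}`, `t` in the span of the vectors `a`, over `ℚ`
(`W5h29/AS/Eul`); for `F` that contains `ω` it is the square of this product.  The starting library (project
JL and the files `R432/JG`) shows that these `L`-functions are entire and not zero at `s = 1`, gives the
joint law of the twists and the extension of `M` by infinitely many primes.
-/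

set_option autoImplicit false

namespace Pool.Agent.Results.MP_cd906c_nt.AllFieldsInInfiniteExtensions

open NumberField IsDedekindDomain Filter Topology
open scoped Classical

/-- The curve `E_D : y² + D y = x³` over `L`. -/
def curve (D : ℕ) (L : Type) [Field L] : WeierstrassCurve L := ⟨0, 0, (D : L), 0, 0⟩

/-- `D` is squarefree, not divisible by `3`, not `±1` modulo `9`, not divisible by the elements of `M`,
and divisible by exactly one prime that is `2` modulo `3`. -/
def InClass (M : Finset ℕ) (D : ℕ) : Prop :=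
  Squarefree D ∧ ¬ 3 ∣ D ∧ D % 9 ≠ 1 ∧ D % 9 ≠ 8 ∧ (∀ l ∈ M, ¬ l ∣ D) ∧
    ∃ q : ℕ, q.Prime ∧ q % 3 = 2 ∧ q ∣ D ∧ ∀ p : ℕ, p.Prime → p ∣ D → p ≠ q → p % 3 = 1

/-- The number `D ∏_{l ∈ M} l ^ (t l)` with exponents `0`, `1`, `2`. -/
def twist (M : Finset ℕ) (D : ℕ) (t : {l : ℕ // l ∈ M} → ZMod 3) : ℕ :=
  D * ∏ l : {l : ℕ // l ∈ M}, l.1 ^ (t l).val

/-- `E_D(ℚ)` is finite and the `3`-primary part of `Ш(E_D / ℚ)` is zero. -/
def TrivialThree (D : ℕ) : Prop :=
  Finite (curve D ℚ).toAffine.Point ∧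
    ∀ (n : ℕ) (x : Pool.Agent.TH841.SH.D.Sha (curve D ℚ)), 3 ^ n • x = 0 → x = 0

/-- All the `3 ^ #M` cubic twists of `E_D` by the numbers with prime factors in `M` have this property. -/
def Good (M : Finset ℕ) (D : ℕ) : Prop :=
  ∀ t : {l : ℕ // l ∈ M} → ZMod 3, TrivialThree (twist M D t)

section field

variable {L : Type} [Field L] [NumberField L]

/-- `V v` is, for every prime `v`, an integral model of `E` with discriminant minimal at `v`. -/
def MinimalModels (E : WeierstrassCurve L)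
    (V : HeightOneSpectrum (𝓞 L) → WeierstrassCurve (𝓞 L)) : Prop :=
  ∀ v : HeightOneSpectrum (𝓞 L),
    (∃ C : WeierstrassCurve.VariableChange L, C • (V v).map (algebraMap (𝓞 L) L) = E) ∧
    ∀ W : WeierstrassCurve (𝓞 L),
      (∃ C : WeierstrassCurve.VariableChange L, C • W.map (algebraMap (𝓞 L) L) = E) →
        ∀ n : ℕ, (V v).Δ ∈ v.asIdeal ^ n → W.Δ ∈ v.asIdeal ^ n

/-- The Euler factor at `v`, computed from the reduction of `V v`: `(1 - a_v q_v^{-s} + q_v^{1-2s})⁻¹` if
the reduction is good and `(1 - a_v q_v^{-s})⁻¹` if it is bad, where `a_v` is `q_v` minus the number of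
affine points of the reduction (so `a_v = 1`, `-1`, `0` in the cases of split multiplicative, non-split
multiplicative and additive reduction). -/
noncomputable def factor (V : HeightOneSpectrum (𝓞 L) → WeierstrassCurve (𝓞 L)) (s : ℂ)
    (v : HeightOneSpectrum (𝓞 L)) : ℂ :=
  (1 - ((Ideal.absNorm v.asIdeal : ℂ)
        - (Nat.card {xy : (𝓞 L ⧸ v.asIdeal) × (𝓞 L ⧸ v.asIdeal) //
            ((V v).map (Ideal.Quotient.mk v.asIdeal)).toAffine.Equation xy.1 xy.2} : ℂ))
        * (Ideal.absNorm v.asIdeal : ℂ) ^ (-s)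
    + (if (V v).Δ ∈ v.asIdeal then 0 else (Ideal.absNorm v.asIdeal : ℂ))
        * (Ideal.absNorm v.asIdeal : ℂ) ^ (-2 * s))⁻¹

/-- The rank part of the conjecture holds for `E` over `L` with order of vanishing and rank zero: `E`
has minimal models; the Euler product over all primes converges for `Re s > 3/2`, whatever the minimal
models, to a function that has a meromorphic continuation `Λ` to `ℂ`, and `Λ` is analytic and not zero at
`s = 1`; and the group `E(L)` is finite. -/
def RankZero (E : WeierstrassCurve L) : Prop :=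
  (∃ V : HeightOneSpectrum (𝓞 L) → WeierstrassCurve (𝓞 L), MinimalModels E V) ∧
  (∃ Λ : ℂ → ℂ, MeromorphicOn Λ Set.univ ∧
    (∀ V : HeightOneSpectrum (𝓞 L) → WeierstrassCurve (𝓞 L), MinimalModels E V →
      ∀ s : ℂ, 3 / 2 < s.re → HasProd (factor V s) (Λ s)) ∧
    AnalyticAt ℂ Λ 1 ∧ Λ 1 ≠ 0) ∧
  Finite E.toAffine.Point

end field

/-- The field `Ω_Q`: the subfield of `ℂ` generated by the cube roots of `1` and of the elements of `Q`. -/
noncomputable def Omega (Q : Set ℕ) : Subfield ℂ :=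
  Subfield.closure {z : ℂ | z ^ 3 = 1 ∨ ∃ l ∈ Q, z ^ 3 = (l : ℂ)}

/-- There is an infinite set `Q ⊇ M` of primes `≡ 1` modulo `9`, not dividing `D`, such that the rank part
of the conjecture holds for `E_D`, with order and rank zero, over every number field contained in `Ω_Q`. -/
def RankZeroInside (M : Finset ℕ) (D : ℕ) : Prop :=
  ∃ Q : Set ℕ, Q.Infinite ∧ (M : Set ℕ) ⊆ Q ∧ (∀ l ∈ Q, l.Prime ∧ l % 9 = 1 ∧ ¬ l ∣ D) ∧
    ∀ (F : Subfield ℂ) [NumberField F], F ≤ Omega Q → RankZero (curve D F)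

/-- The number of the `D ≤ X` in the class with the property `P`. -/
noncomputable def num (M : Finset ℕ) (P : ℕ → Prop) (X : ℕ) : ℕ :=
  ((Finset.Icc 1 X).filter fun D => InClass M D ∧ P D).card

/-- `c = ∏_{i ≥ 1} (1 - 3^{-i})`. -/
noncomputable def c : ℝ := ∏' i : ℕ, (1 - (1 / 3 : ℝ) ^ (i + 1))

section proof

open Pool.Agent.R432.JG (Cl cl_iff triv_iff tw_cls pre_of twN law_cnt)
open Pool.Agent.R413.MQ.Bin (cnt cnt_card cnt_congr)
open Pool.Agent.H341R2.EC (IsModel IsMinAt red aff trc dlt)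
open Pool.Agent.R433.MD (lf)
open Pool.Agent.H921R2.TatePole (nm two_le_nm)

section bridge
variable {K : Type} [Field K] [NumberField K]

theorem isModel_iff (E : WeierstrassCurve K) (W : WeierstrassCurve (𝓞 K)) :
    (∃ C : WeierstrassCurve.VariableChange K, C • W.map (algebraMap (𝓞 K) K) = E) ↔
      IsModel E W := by
  constructor
  · rintro ⟨C, hC⟩
    exact ⟨C⁻¹, by rw [← hC, inv_smul_smul]⟩
  · rintro ⟨C, hC⟩
    exact ⟨C⁻¹, by rw [← hC, inv_smul_smul]⟩

theorem minimalModels_iff (E : WeierstrassCurve K)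
    (V : HeightOneSpectrum (𝓞 K) → WeierstrassCurve (𝓞 K)) :
    MinimalModels E V ↔ ∀ v, IsMinAt E v (V v) := by
  unfold MinimalModels IsMinAt
  simp only [isModel_iff]

theorem factor_eq (V : HeightOneSpectrum (𝓞 K) → WeierstrassCurve (𝓞 K)) (s : ℂ)
    (v : HeightOneSpectrum (𝓞 K)) : factor V s v = (lf V s v)⁻¹ := by
  unfold factor
  congr 1
  unfold lf trc dlt
  have h0 : ((nm v : ℕ) : ℂ) ≠ 0 := by
    have := two_le_nm v
    exact_mod_cast (by omega : nm v ≠ 0)
  have e1 : Nat.card {xy : (𝓞 K ⧸ v.asIdeal) × (𝓞 K ⧸ v.asIdeal) //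
      ((V v).map (Ideal.Quotient.mk v.asIdeal)).toAffine.Equation xy.1 xy.2} =
      aff (red v (V v)) := by
    unfold aff red
    refine Nat.card_congr (Equiv.subtypeEquivRight fun xy => ?_)
    rw [WeierstrassCurve.Affine.equation_iff]
  have e2 : ((nm v : ℕ) : ℂ) ^ (1 - 2 * s) = ((nm v : ℕ) : ℂ) * ((nm v : ℕ) : ℂ) ^ (-2 * s) := by
    rw [sub_eq_add_neg, Complex.cpow_add _ _ h0, Complex.cpow_one]
    congr 2
    ring
  have e3 : (Ideal.absNorm v.asIdeal : ℂ) = ((nm v : ℕ) : ℂ) := rfl
  rw [e1, e2, e3]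
  push_cast
  split_ifs with h
  · ring
  · ring

end bridge

variable {M : Finset ℕ}

theorem num_eq (Q : ℕ → Prop) (X : ℕ) : num M Q X = cnt (Cl M) Q X := by
  unfold num
  symm
  refine cnt_card fun D => ?_
  rw [Finset.mem_filter, show InClass M D ↔ Cl M D from (cl_iff M D).symm]

theorem good_iff (hM : ∀ l ∈ M, l.Prime ∧ l % 9 = 1) {D : ℕ} (hD : Cl M D) :
    Good M D ↔ ∀ t : {l : ℕ // l ∈ M} → ZMod 3, Pool.Agent.Y703.CT.NoSplit (twN D M t) := by
  have h1 : ∀ t : {l : ℕ // l ∈ M} → ZMod 3,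
      TrivialThree (twist M D t) ↔ Pool.Agent.Y703.CT.NoSplit (twN D M t) := fun t =>
    triv_iff (tw_cls (t := t) hD.2.1 (pre_of hM hD))
  unfold Good
  exact forall_congr' h1

/-- The theorem for one `D`. -/
theorem inside (hM : ∀ l ∈ M, l.Prime ∧ l % 9 = 1) {D : ℕ} (hD : InClass M D) (hg : Good M D) :
    RankZeroInside M D := by
  have hC : Cl M D := (cl_iff M D).2 hD
  obtain ⟨Q, h1, h2, h3, h4⟩ := Pool.Agent.W5h29.AS.infQ hM hC
  refine ⟨Q, h1, h2, h3, ?_⟩
  intro F _ hF
  obtain ⟨S, a, hS, hFS⟩ := h4 F hF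
  obtain ⟨h5, Λ, h6, h7, h8, h9⟩ := Pool.Agent.W5h29.AS.overF hM hC hS ((good_iff hM hC).1 hg) F hFS
  obtain ⟨V0, hV0⟩ := Pool.Agent.R433.MD.exists_minimal (curve D F)
    (Pool.Agent.R432.JG.ell hC.1.ne_zero)
  refine ⟨⟨V0, (minimalModels_iff _ _).2 hV0⟩, ⟨Λ, h6, fun V hV s hs => ?_, h7, h8⟩, h5⟩
  exact (h9 V ((minimalModels_iff _ _).1 hV) s hs).congr_fun fun v => (factor_eq V s v)

end proof

/-- **Main theorem.** -/
theorem result (M : Finset ℕ) (hM : ∀ l ∈ M, l.Prime ∧ l % 9 = 1) :
    (0.56 : ℝ) < c ∧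
    (∃ a : ℝ, 0 < a ∧ ∃ X₀ : ℕ, ∀ X : ℕ, X₀ ≤ X →
      a * X / Real.sqrt (Real.log X) ≤ (num M (fun _ => True) X : ℝ)) ∧
    Tendsto (fun X : ℕ => (num M (Good M) X : ℝ) / (num M (fun _ => True) X : ℝ)) atTop
      (𝓝 (c ^ 3 ^ M.card)) ∧
    ∀ D : ℕ, InClass M D → Good M D → RankZeroInside M D := by
  have hcard : (Finset.univ : Finset ({l : ℕ // l ∈ M} → ZMod 3)).card = 3 ^ M.card := by
    rw [Finset.card_univ, Fintype.card_fun, ZMod.card, Fintype.card_coe]
  refine ⟨Pool.Agent.R432.JG.c3_gt, ?_, ?_, fun D hD hg => inside hM hD hg⟩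
  · obtain ⟨c₀, hc₀, X₁, h1⟩ := Pool.Agent.R432.JG.low hM
    refine ⟨c₀, hc₀, X₁, fun X hX => ?_⟩
    have e2 : num M (fun _ => True) X =
        ((Finset.Icc 1 X).filter fun D => Pool.Agent.R432.JG.Cl M D).card := by
      rw [num_eq]
      refine Pool.Agent.R413.MQ.Bin.cnt_card fun D => ?_
      rw [Finset.mem_filter, and_iff_left trivial]
    rw [e2]
    exact h1 X hX
  · have h := Pool.Agent.R432.JG.law_cnt hM Finset.univ
    rw [hcard] at h
    refine h.congr fun X => ?_
    rw [num_eq, num_eq]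
    congr 2
    refine Pool.Agent.R413.MQ.Bin.cnt_congr (fun D hD => ?_) X
    rw [good_iff hM hD]
    simp

end Pool.Agent.Results.MP_cd906c_nt.AllFieldsInInfiniteExtensions
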