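import Pool.Agent.W5h26.AN.Mean
import Pool.Agent.W5h26.AO.Box
import Pool.Agent.W5h26.AO.Chr
import Pool.Agent.W5h26.AO.Gen

/-!
# The average order at the central point over a finite extension

Let `L/K` be a finite extension of number fields. We consider the elliptic curves
`E : y² = x³ + h_2 x² + h_1 x + h_0` with coefficients in the integers of `K`, and their L-functions
`L(E/L, s)` over `L`. We show that the mean value over all these `E` of `L'/L(E/L, s)`, which exists
for `Re s > 3/2`, continues to a meromorphic function in `Re s > 5/6`, whose only singularity in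
`Re s ≥ 1` is a simple pole at `s = 1`. Its residue is `ν / 2`, where `ν` is the number of the factors of
`L ⊗ L` (over `K`) which are fixed by the exchange of the two factors. If `F` is a Galois extension of
`K` which contains `L`, with the group `G`, and `H` is the subgroup which belongs to `L`, this is

  `#{σ ∈ G : σ² ∈ H} / (2 #H)`,

and `ν` is the number of the double cosets `H σ H` which contain `σ⁻¹`.

So this is the average order (in this sense) of vanishing at the central point over `L` of the curves
defined over `K`. For example it is `1` for every extension `L/K` of degree at least two whose Galois closure has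
the full symmetric group, it is `#{σ ∈ G : σ² = 1} / 2` if `L/K` is a Galois extension with the group
`G` and `1/2` if the degree of the Galois closure is odd. In general an irreducible representation `ρ` of
`G` contributes `dim ρ^H` times `1/2`, `0` or `- 1/2` according as it is orthogonal, not self-dual or
symplectic (Frobenius and Schur), in agreement with the symmetry types of Katz and Sarnak.

More generally we consider the curves `y² = f(x)` of genus `g`, `f` monic of degree `2 g + 1` over the
integers of `K`, through `r ≤ 2 g - 1` given integral points, and the L-functions of their Jacobians over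
`L`: the residue is `r + #{σ ∈ G : σ² ∈ H} / (2 #H)`, and `r` is the rank of the generic Jacobian, over
`K` and over every field which contains `K`.

Proof. A prime `w` of `L` above the prime `v` of `K` of residue degree `f` sees the `f`-th power of the
Frobenius at `v`. By the averages `- r + O(q_v ^ (-1/2))` and `- q_v + O(1)` of the traces of the Frobenius
and of its square over the curves modulo `v`, the mean value is
`r D_L(s) + D_L(2 s - 1) + ∑_{f_w = 2} log q_w q_w ^ (1/2 - s)` up to a holomorphic function in
`Re s > 5/6`, with `D_L(s) = ∑ log q_w / q_w ^ s`. For `x ≠ H` in `G/H` let `J_x` be the stabiliser of the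
pair `{H, x}` and `I_x` the subgroup fixing both. The orbit of `H` under the decomposition group `D` of a prime
of `F` has two elements if and only if `D ≤ J_x` and not `D ≤ I_x` for an `x`, which is then unique. It
follows that the last sum is `∑_x (#J_x D_{F^{J_x}}(2 s - 1) - #I_x D_{F^{I_x}}(2 s - 1)) / #H` up to a
holomorphic function, where `x` runs over the elements `≠ H` of `G/H`, and
`∑_x (#J_x - #I_x) = #{σ ∉ H : σ² ∈ H}`.
-/

set_option autoImplicit false

namespace Pool.Agent.Results.MP_cd906c_nt.AverageOrderExtensions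

open NumberField IsDedekindDomain Polynomial Filter Topology

section family

/-- The polynomial `a + (h_0 + h_1 X + … + h_{n-1} X ^ (n-1)) ∏ (X - α_j)`. -/
noncomputable def member {R : Type} [CommRing R] {r n : ℕ} (a : R[X]) (α : Fin r → R)
    (h : Fin n → R) : R[X] :=
  a + (∑ i : Fin n, C (h i) * X ^ (i : ℕ)) * ∏ j, (X - C (α j))

/-- The map from the integers of `K` to the field of rational functions in `w` over `M`. -/
noncomputable def constants (K E M : Type) [Field K] [Field E] [Algebra K E] [Field M]
    [Algebra E M] : 𝓞 K →+* RatFunc M :=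
  (algebraMap M (RatFunc M)).comp
    ((algebraMap E M).comp ((algebraMap K E).comp (algebraMap (𝓞 K) K)))

/-- The generic member of the family: `a + (w + ξ_1 X + … + ξ_{m+1} X ^ (m+1)) ∏ (X - α_j)` over the field
`M(w)`. -/
noncomputable def generic {K : Type} [Field K] {r m : ℕ} (a : (𝓞 K)[X]) (α : Fin r → 𝓞 K)
    (E : Type) [Field E] [Algebra K E] {M : Type} [Field M] [Algebra E M]
    (ξ : Fin (m + 1) → M) : (RatFunc M)[X] :=
  member (a.map (constants K E M)) (fun j => constants K E M (α j))
    (Fin.cons RatFunc.X (fun i => algebraMap M (RatFunc M) (ξ i)) : Fin (m + 2) → RatFunc M)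

/-- `Y ^ 2 = f(X)` is a smooth curve of genus `g`, with one point at infinity: `f` is monic and
separable of degree `2 g + 1`. -/
def IsSmoothCurve {L : Type} [Field L] (g : ℕ) (f : L[X]) : Prop :=
  f.Monic ∧ f.natDegree = 2 * g + 1 ∧ f.Separable

/-- The class group of the ring `L[X, Y] / (Y ^ 2 - f(X))` is a free abelian group of rank `n`.
(For a smooth curve with one point at infinity this is the group of the rational points of the
Jacobian.) -/
def JacobianFreeOfRank {L : Type} [Field L] (f : L[X]) (n : ℕ) : Prop :=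
  ∃ _ : IsDomain (AdjoinRoot (X ^ 2 - C f : L[X][X])),
    Module.Free ℤ (Additive (ClassGroup (AdjoinRoot (X ^ 2 - C f : L[X][X])))) ∧
    Module.Finite ℤ (Additive (ClassGroup (AdjoinRoot (X ^ 2 - C f : L[X][X])))) ∧
    Module.finrank ℤ (Additive (ClassGroup (AdjoinRoot (X ^ 2 - C f : L[X][X])))) = n

end family

section analytic

variable {L : Type} [Field L] [NumberField L]

/-- The residue field of the prime `v`. -/
noncomputable instance residueField (v : HeightOneSpectrum (𝓞 L)) : Field (𝓞 L ⧸ v.asIdeal) :=
  Pool.Agent.R409.RA.fieldQuot v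

/-- The curve `y² = f(x)` has good reduction at `v` in this equation: the residue characteristic is odd
and `f` is separable modulo `v`. -/
def IsGood (f : (𝓞 L)[X]) (v : HeightOneSpectrum (𝓞 L)) : Prop :=
  (2 : 𝓞 L) ∉ v.asIdeal ∧ (f.map (Ideal.Quotient.mk v.asIdeal)).Separable

/-- The number of the points with coordinates in the field with `q_v ^ m` elements of the affine curve
`y² = f(x)` over the residue field of `v`, which has `q_v` elements. -/
noncomputable def points (f : (𝓞 L)[X]) (v : HeightOneSpectrum (𝓞 L)) (m : ℕ) : ℕ :=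
  Nat.card {P : AlgebraicClosure (𝓞 L ⧸ v.asIdeal) × AlgebraicClosure (𝓞 L ⧸ v.asIdeal) //
    P.1 ^ (Ideal.absNorm v.asIdeal ^ m) = P.1 ∧ P.2 ^ (Ideal.absNorm v.asIdeal ^ m) = P.2 ∧
      P.2 ^ 2 = aeval P.1 (f.map (Ideal.Quotient.mk v.asIdeal))}

/-- The trace of the `m`-th power of the Frobenius at `v` on the first cohomology of the curve. -/
noncomputable def trace (f : (𝓞 L)[X]) (v : HeightOneSpectrum (𝓞 L)) (m : ℕ) : ℤ :=
  (Ideal.absNorm v.asIdeal : ℤ) ^ m - points f v m

/-- The Euler factor `det(1 - Frob_v q_v^{-s})⁻¹ = exp(∑_{m ≥ 1} tr(Frob_v ^ m) q_v^{-m s} / m)`. -/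
noncomputable def eulerFactor (f : (𝓞 L)[X]) (v : HeightOneSpectrum (𝓞 L)) (s : ℂ) : ℂ :=
  Complex.exp (∑' m : ℕ, (trace f v (m + 1) : ℂ) *
    ((Ideal.absNorm v.asIdeal : ℂ) ^ (-s)) ^ (m + 1) / (m + 1))

/-- The L-function over `L` of the Jacobian of the curve `y² = f(x)`: the product of the Euler factors at
the primes of `L` of good reduction of this equation. -/
noncomputable def LFun (f : (𝓞 L)[X]) (s : ℂ) : ℂ :=
  ∏' v : {v : HeightOneSpectrum (𝓞 L) // IsGood f v}, eulerFactor f v.1 s

end analytic

section mean

open Classical in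
/-- `S` is a Følner sequence of the abelian group `A`: a sequence of nonempty finite sets such that for
every `a` the proportion of the `x` in `S j` for which `x + a` is not in `S j` tends to `0`. -/
def IsFolner {A : Type} [AddCommGroup A] (S : ℕ → Finset A) : Prop :=
  (∀ j, (S j).Nonempty) ∧ ∀ a : A, Tendsto (fun j =>
    (((S j).filter fun x => x + a ∉ S j).card : ℝ) / ((S j).card : ℝ)) atTop (𝓝 0)

/-- `μ` is the mean value of `φ`: the limit of the averages over `S j`, for every Følner sequence
`S`. -/
def IsMean {A : Type} [AddCommGroup A] (φ : A → ℂ) (μ : ℂ) : Prop :=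
  ∀ S : ℕ → Finset A, IsFolner S →
    Tendsto (fun j => (∑ x ∈ S j, φ x) / ((S j).card : ℂ)) atTop (𝓝 μ)

end mean

/-- **The average order over a finite extension.** Let `L/K` be an extension of number fields, `F/K` a
Galois extension which contains `L`, `n + 2 + r = 2 g + 1`, `a` a monic polynomial of degree `2 g + 1` over
the integers of `K`, and `a(α_j) = y_j²`, `1 ≤ j ≤ r`, with different `α_j` and with `y_j ≠ 0`.

(1) The polynomials `f_h = a + (h_0 + … + h_{n+1} X ^ (n+1)) ∏ (X - α_j)` are all the monic polynomials of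
degree `2 g + 1` over the integers of `K` with `f(α_j) = y_j²` for all `j`.

(2) For every field `E ⊇ K` (for example `E = L`) the curve `Y² = f_h(X)` over `E(w, ξ_1, …, ξ_{n+1})`, for
the generic `h = (w, ξ_1, …, ξ_{n+1})`, is smooth of genus `g`, and the group of the rational points of its
Jacobian is free of rank `r`.

(3) There is a function `M` such that for `Re s > 3/2` the mean value of `L'/L(J_h/L, s)`, `J_h` the
Jacobian of `y² = f_h(x)`, over all `h` with coordinates in the integers of `K`, is `M(s)`. It is
meromorphic in `Re s > 5/6`, analytic in `Re s ≥ 1` except at `s = 1`, and has a simple pole with residue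
`r + #{σ ∈ Gal(F/K) : σ² = 1 on L} / (2 [F : L])` at `s = 1`.

(4) There are Følner sequences for the family. -/
theorem result (K L F : Type) [Field K] [NumberField K] [Field L] [NumberField L] [Field F]
    [NumberField F] [Algebra K L] [Algebra L F] [Algebra K F] [IsScalarTower K L F] [IsGalois K F]
    (g r n : ℕ) (hn : n + 2 + r = 2 * g + 1)
    (a : (𝓞 K)[X]) (ha : a.Monic) (hd : a.natDegree = 2 * g + 1) (α y : Fin r → 𝓞 K)
    (hα : Function.Injective α) (hy : ∀ j, a.eval (α j) = y j ^ 2) (hy0 : ∀ j, y j ≠ 0) :
    (∀ f : (𝓞 K)[X], (f.Monic ∧ f.natDegree = 2 * g + 1 ∧ ∀ j, f.eval (α j) = y j ^ 2) ↔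
      ∃ h : Fin (n + 2) → 𝓞 K, f = member a α h) ∧
    (∀ (E : Type) [Field E] [Algebra K E] (M : Type) [Field M] [Algebra E M] (ξ : Fin (n + 1) → M),
      AlgebraicIndependent E ξ → IntermediateField.adjoin E (Set.range ξ) = ⊤ →
        IsSmoothCurve g (generic a α E ξ) ∧ JacobianFreeOfRank (generic a α E ξ) r) ∧
    (∃ M : ℂ → ℂ,
      (∀ s : ℂ, 3 / 2 < s.re →
        IsMean (fun h : Fin (n + 2) → 𝓞 K =>
          logDeriv (LFun ((member a α h).map (algebraMap (𝓞 K) (𝓞 L)))) s) (M s)) ∧
      MeromorphicOn M {s | (5 / 6 : ℝ) < s.re} ∧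
      (∀ s : ℂ, 1 ≤ s.re → s ≠ 1 → AnalyticAt ℂ M s) ∧
      ∃ H : ℂ → ℂ, AnalyticAt ℂ H 1 ∧
        ∀ s, M s = (r +
          (Nat.card {σ : F ≃ₐ[K] F // ∀ x : L, σ (σ (algebraMap L F x)) = algebraMap L F x} : ℂ) /
            (2 * Module.finrank L F)) / (s - 1) + H s) ∧
    ∃ S : ℕ → Finset (Fin (n + 2) → 𝓞 K), IsFolner S := by
  refine ⟨fun f => ?_, ?_, ?_, ?_⟩
  · have h1 := Pool.Agent.W5h26.AO.mem_iff (f := f) ha hd hn hα
    simp only [hy] at h1
    exact h1
  · intro E _ _ M _ _ ξ hξ htop
    have : CharZero E := charZero_of_injective_algebraMap (algebraMap K E).injective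
    let _ : Algebra (𝓞 K) E := ((algebraMap K E).comp (algebraMap (𝓞 K) K)).toAlgebra
    have hinj : Function.Injective (algebraMap (𝓞 K) E) :=
      (algebraMap K E).injective.comp (IsFractionRing.injective (𝓞 K) K)
    have : FaithfulSMul (𝓞 K) E := (faithfulSMul_iff_algebraMap_injective _ _).2 hinj
    obtain ⟨h1, h2, h3, h4⟩ := Pool.Agent.W5h26.AO.gen_class (E := E) (M := M) ha hd hn hα hy hy0
      hξ htop
    exact ⟨⟨h1, h2, h3⟩, h4⟩
  · have : Fintype (F ≃ₐ[K] F) := Fintype.ofFinite _
    obtain ⟨M, hM1, hM2, ⟨H, hH, hMH⟩, hM3⟩ := Pool.Agent.W5h26.AN.any_mean K L F (F ≃ₐ[K] F)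
      ha hd hn hα hy hy0
    refine ⟨M, fun s hs S hS => ?_, hM1, hM2, H, hH, fun s => ?_⟩
    · refine (hM3 s hs S ⟨hS.1, hS.2⟩).congr fun j => ?_
      unfold Pool.Agent.W5h26.AO.mean
      congr 1
      refine Finset.sum_congr rfl fun h _ => ?_
      obtain ⟨e1, e2⟩ := Pool.Agent.W5h26.AO.mem_monic ha hd hn.le α h
      obtain ⟨e3, e4⟩ := Pool.Agent.W5h26.AG.bc_deg K L e1 e2
      have h3 := Pool.Agent.W5h26.AO.logDeriv_eq
        (F := LFun ((member a α h).map (algebraMap (𝓞 K) (𝓞 L)))) e3 e4
        (fun z hz => (Pool.Agent.W5h26.AO.euler e3 e4 hz).tprod_eq) hs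
      exact h3.symm
    · rw [hMH, Pool.Agent.W5h26.AN.card_sq, Pool.Agent.W5h26.AN.card_HH]
  · obtain ⟨S, hS⟩ := Pool.Agent.W5h26.AO.exists_folner (Fin (n + 2) → 𝓞 K)
    exact ⟨S, hS.nonempty, hS.shift⟩

end Pool.Agent.Results.MP_cd906c_nt.AverageOrderExtensions
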