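import Pool.Agent.W5h26.AC.All
import Pool.Agent.W5h26.AC.Emb
import Pool.Agent.W5h26.AC.F1
import Pool.Agent.W5h26.AC.N2
import Pool.Agent.W5h26.AC.MJ
import Pool.Agent.W5h26.AC.Pb
import Pool.Agent.W5h26.AC.Phi
import Pool.Agent.W5h26.AC.Sq
import Pool.Agent.W5h26.AN.Mean
import Pool.Agent.W5h26.AO.Chr
import Pool.Agent.W5h26.AO.Gen

/-!
# The central limit theorem for the Birch and Swinnerton-Dyer products over a finite extension

Birch and Swinnerton-Dyer stated their conjecture first in the form
`∏_{q_v ≤ X} #E(k_v) / q_v ~ C (log X) ^ rank E(L)`, for an elliptic curve `E` over the number field `L`.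

Let `L/K` be a finite extension of number fields. We consider the elliptic curves
`E_h : y² = x³ + h_2 x² + h_1 x + h_0` with coefficients in the integers of `K`, ordered by height: the
coordinates of the coefficients in a basis of the integers of `K` over `ℤ` are at most `N` in absolute
value; more generally all those which contain a given integral point `(α, y)` with `y ≠ 0` (the rank of the
generic curve is `r = 0` in the first case, and `r = 1` in the second case). Let `X = N ^ c`, a fixed power
of the height, `0 < c < 1/3`. We prove that the logarithm of the product of Birch and Swinnerton-Dyer over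
`L` of a random curve of height at most `N` at `X` is asymptotically normal with mean value
`(r + ν / 2) log log N` and variance `μ log log N`, where `μ` is the number of the factors of the algebra
`L ⊗ L` over `K`, and `ν` is the number of the factors which are fixed by the exchange of the two factors
`L`. If `F` is a Galois extension of `K` which contains `L`, with the group `G`, and `H` is the subgroup
which belongs to `L`, then `μ` is the number of the double cosets of `H` in `G`, and
`ν = #{σ ∈ G : σ² ∈ H} / #H`.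

In particular for 100 % of the curves `E` over `K` the product over `L` is `(log X) ^ (r + ν / 2 + o(1))`.
For `L = K` this is `(log X) ^ (r + 1/2 + o(1))`. In general an irreducible representation `ρ` of `G`
contributes to the exponent `dim ρ^H` times `1/2`, `0` or `- 1/2` according as it is orthogonal, not
self-dual or symplectic (Frobenius and Schur), in agreement with the symmetry types of Katz and Sarnak.

The theorem is proved for all hyperelliptic curves `y² = f(x)` of genus `g ≥ 1`, `f` monic of degree
`2 g + 1` over the integers of `K`, which contain `r ≤ 2 g - 1` given integral points: for the products of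
the numbers of the points of the curves over the residue fields of `L`, for the products
`∏ #J(k_w) / q_w ^ g` for the Jacobians, and for the sums `∑ (- a_w) / q_w` of Mestre and Nagao, where the
mean value is `(r + (ν - 1) / 2) log log N`.

Proof. The reductions modulo different primes of a random curve of the family are independent for
primes of norm at most `N ^ (1 / log log N)` as far as moments of bounded order are concerned (the
characteristic function is compared with that of the model by means of Taylor's formula, Granville and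
Soundararajan); the sum over the remaining primes up to `N ^ c` is small in mean square. The average
trace of the Frobenius at `v` is `- r + O(q_v ^ (-1/2))`, the average of its square is `q_v + O(1)`, the average
trace of the square of the Frobenius is `- q_v + O(1)`. The prime `v` of `K` occurs with the
multiplicity `φ(v)`, the number of the primes of `L` of degree one above `v`: this is the number of the fixed
points of the decomposition group on `G / H`, and the mean value of `φ(v)²` (in the sense of Mertens) is the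
number of the orbits of `G` on the pairs; the mean value of the number of the primes of degree two above
`v` is `(ν - 1) / 2`.
-/

set_option autoImplicit false

namespace Pool.Agent.Results.MP_cd906c_nt.CentralLimitExtensions

open NumberField IsDedekindDomain Polynomial Filter Topology

section family

/-- The polynomial `a + (h_0 + h_1 X + … + h_{n-1} X ^ (n-1)) ∏ (X - α_j)`. -/
noncomputable def member {R : Type} [CommRing R] {r n : ℕ} (a : R[X]) (α : Fin r → R)
    (h : Fin n → R) : R[X] :=
  a + (∑ i : Fin n, C (h i) * X ^ (i : ℕ)) * ∏ j, (X - C (α j))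

/-- The map from the integers of `K` to the field of rational functions in `w` over `M`. -/
noncomputable def constants (K E M : Type) [Field K] [Field E] [Algebra K E] [Field M]
    [Algebra E M] : 𝓞 K →+* RatFunc M :=
  (algebraMap M (RatFunc M)).comp
    ((algebraMap E M).comp ((algebraMap K E).comp (algebraMap (𝓞 K) K)))

/-- The generic member of the family: `a + (w + ξ_1 X + … + ξ_{m+1} X ^ (m+1)) ∏ (X - α_j)` over the field
`M(w)`. -/
noncomputable def generic {K : Type} [Field K] {r m : ℕ} (a : (𝓞 K)[X]) (α : Fin r → 𝓞 K)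
    (E : Type) [Field E] [Algebra K E] {M : Type} [Field M] [Algebra E M]
    (ξ : Fin (m + 1) → M) : (RatFunc M)[X] :=
  member (a.map (constants K E M)) (fun j => constants K E M (α j))
    (Fin.cons RatFunc.X (fun i => algebraMap M (RatFunc M) (ξ i)) : Fin (m + 2) → RatFunc M)

/-- `Y ^ 2 = f(X)` is a smooth curve of genus `g`, with one point at infinity: `f` is monic and
separable of degree `2 g + 1`. -/
def IsSmoothCurve {L : Type} [Field L] (g : ℕ) (f : L[X]) : Prop :=
  f.Monic ∧ f.natDegree = 2 * g + 1 ∧ f.Separable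

/-- The class group of the ring `L[X, Y] / (Y ^ 2 - f(X))` is a free abelian group of rank `n`.
(For a smooth curve with one point at infinity this is the group of the rational points of the
Jacobian.) -/
def JacobianFreeOfRank {L : Type} [Field L] (f : L[X]) (n : ℕ) : Prop :=
  ∃ _ : IsDomain (AdjoinRoot (X ^ 2 - C f : L[X][X])),
    Module.Free ℤ (Additive (ClassGroup (AdjoinRoot (X ^ 2 - C f : L[X][X])))) ∧
    Module.Finite ℤ (Additive (ClassGroup (AdjoinRoot (X ^ 2 - C f : L[X][X])))) ∧
    Module.finrank ℤ (Additive (ClassGroup (AdjoinRoot (X ^ 2 - C f : L[X][X])))) = n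

end family

section products

variable {K : Type} [Field K] [NumberField K]

/-- The residue field of the prime `v`. -/
noncomputable instance residueField (v : HeightOneSpectrum (𝓞 K)) : Field (𝓞 K ⧸ v.asIdeal) :=
  Pool.Agent.R409.RA.fieldQuot v

/-- The number `q_v` of elements of the residue field of `v`. -/
noncomputable def q (v : HeightOneSpectrum (𝓞 K)) : ℕ := Ideal.absNorm v.asIdeal

/-- The curve `y² = f(x)` has good reduction at `v` in this equation: the residue characteristic is odd
and `f` is separable modulo `v`. -/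
def IsGood (f : (𝓞 K)[X]) (v : HeightOneSpectrum (𝓞 K)) : Prop :=
  (2 : 𝓞 K) ∉ v.asIdeal ∧ (f.map (Ideal.Quotient.mk v.asIdeal)).Separable

/-- The number of the points with coordinates in the field with `q_v ^ m` elements of the affine curve
`y² = f(x)` over the residue field of `v`. -/
noncomputable def points (f : (𝓞 K)[X]) (v : HeightOneSpectrum (𝓞 K)) (m : ℕ) : ℕ :=
  Nat.card {P : AlgebraicClosure (𝓞 K ⧸ v.asIdeal) × AlgebraicClosure (𝓞 K ⧸ v.asIdeal) //
    P.1 ^ (q v ^ m) = P.1 ∧ P.2 ^ (q v ^ m) = P.2 ∧
      P.2 ^ 2 = aeval P.1 (f.map (Ideal.Quotient.mk v.asIdeal))}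

/-- The trace of the `m`-th power of the Frobenius at `v` on the first cohomology of the curve. -/
noncomputable def trace (f : (𝓞 K)[X]) (v : HeightOneSpectrum (𝓞 K)) (m : ℕ) : ℤ :=
  (q v : ℤ) ^ m - points f v m

/-- `∏ N_v / q_v` over the primes `v` with `q_v ≤ X` at which the curve has good reduction, where
`N_v` is the number of the points over the residue field of the curve together with the point at
infinity. -/
noncomputable def pointProduct (f : (𝓞 K)[X]) (X : ℝ) : ℝ :=
  ∏ᶠ (v : HeightOneSpectrum (𝓞 K)) (_ : (q v : ℝ) ≤ X ∧ IsGood f v),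
    ((points f v 1 : ℝ) + 1) / q v

/-- The value `det(1 - Frob_v / q_v) = exp(- ∑_{m ≥ 1} tr(Frob_v ^ m) q_v ^ (-m) / m)`: the number of the
points over the residue field of the Jacobian of the curve, divided by `q_v ^ g`. -/
noncomputable def jacobianDensity (f : (𝓞 K)[X]) (v : HeightOneSpectrum (𝓞 K)) : ℝ :=
  Real.exp (-∑' m : ℕ, (trace f v (m + 1) : ℝ) * ((q v : ℝ)⁻¹) ^ (m + 1) / (m + 1))

/-- The product of these numbers over the primes `v` with `q_v ≤ X` at which the curve has good
reduction. -/
noncomputable def jacobianProduct (f : (𝓞 K)[X]) (X : ℝ) : ℝ :=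
  ∏ᶠ (v : HeightOneSpectrum (𝓞 K)) (_ : (q v : ℝ) ≤ X ∧ IsGood f v), jacobianDensity f v

/-- The sum of `- a_v / q_v` over the primes `v` with `q_v ≤ X` at which the curve has good reduction,
where `a_v` is the trace of the Frobenius. -/
noncomputable def traceSum (f : (𝓞 K)[X]) (X : ℝ) : ℝ :=
  ∑ᶠ (v : HeightOneSpectrum (𝓞 K)) (_ : (q v : ℝ) ≤ X ∧ IsGood f v), -(trace f v 1 : ℝ) / q v

end products

section box

variable {K : Type} [Field K] [NumberField K] {m : ℕ} {κ : Type}

/-- The coordinates of the `h_i` in the basis `b` of the integers of `K` are at most `N` in absolute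
value. -/
def InBox (b : Module.Basis κ ℤ (𝓞 K)) (N : ℕ) (h : Fin m → 𝓞 K) : Prop :=
  ∀ i j, |b.repr (h i) j| ≤ N

/-- The proportion of the `h` of height at most `N` with the property `P`. -/
noncomputable def proportion (b : Module.Basis κ ℤ (𝓞 K)) (N : ℕ) (P : (Fin m → 𝓞 K) → Prop) : ℝ :=
  (Nat.card {h : Fin m → 𝓞 K // InBox b N h ∧ P h} : ℝ) /
    (Nat.card {h : Fin m → 𝓞 K // InBox b N h} : ℝ)

/-- The function `W N` on the `h` of height at most `N` is asymptotically normal, with mean value
`μ log log N` and variance `V log log N`. -/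
def AsymptoticallyNormal (b : Module.Basis κ ℤ (𝓞 K)) (μ V : ℝ) (W : ℕ → (Fin m → 𝓞 K) → ℝ) :
    Prop :=
  ∀ t : ℝ, Tendsto (fun N : ℕ => proportion b N fun h =>
    (W N h - μ * Real.log (Real.log N)) / √(V * Real.log (Real.log N)) ≤ t) atTop
    (𝓝 ((ProbabilityTheory.gaussianReal 0 1).real (Set.Iic t)))

end box

section constants

variable (K L F : Type) [Field K] [Field L] [Field F] [Algebra K L] [Algebra L F] [Algebra K F]

/-- `#{σ ∈ Gal(F/K) : σ² = 1 on L} / (2 [F : L])`. -/
noncomputable def halfInvolutions : ℝ :=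
  (Nat.card {σ : F ≃ₐ[K] F // ∀ x : L, σ (σ (algebraMap L F x)) = algebraMap L F x} : ℝ) /
    (2 * Module.finrank L F)

/-- The mean value, over the elements `σ` of `Gal(F/K)`, of the square of the number of the embeddings of
`L` in `F` over `K` which are fixed by `σ`. -/
noncomputable def meanSquare : ℝ :=
  (∑ᶠ σ : F ≃ₐ[K] F, (Nat.card {τ : L →ₐ[K] F // ∀ x, σ (τ x) = τ x} : ℝ) ^ 2) /
    Nat.card (F ≃ₐ[K] F)

end constants

open Pool.Agent.H921R2.TatePole (nm)

section proof

variable {K : Type} [Field K] [NumberField K] {r n : ℕ} {a : (𝓞 K)[X]} {α : Fin r → 𝓞 K}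

theorem filter_iff (f : (𝓞 K)[X]) (X : ℝ) [DecidablePred (IsGood f)]
    (v : HeightOneSpectrum (𝓞 K)) :
    ((q v : ℝ) ≤ X ∧ IsGood f v) ↔ v ∈ (Pool.Agent.W5h26.CL.PX K X).filter (IsGood f) := by
  rw [Finset.mem_filter, Pool.Agent.W5h26.CL.mem_PX]
  rfl

theorem good_iff (h : Fin n → 𝓞 K) (v : HeightOneSpectrum (𝓞 K)) :
    IsGood (member a α h) v ↔ (ringChar (𝓞 K ⧸ v.asIdeal) ≠ 2 ∧
      (Pool.Agent.W5h26.AO.mem (Pool.Agent.W5h26.AO.red v a)
        (fun j => Ideal.Quotient.mk v.asIdeal (α j))
        (Pool.Agent.W5h26.AO.rho v n h)).Separable) := by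
  have h1 := Pool.Agent.W5h26.AO.red_mem (a := a) (α := α) v h
  rw [Pool.Agent.W5h26.AO.char_two v]
  show _ ↔ _ ∧ (Pool.Agent.W5h26.AO.mem (Pool.Agent.W5h26.AO.red v a)
        (fun j => Ideal.Quotient.mk v.asIdeal (α j))
        (fun i => Ideal.Quotient.mk v.asIdeal (h i))).Separable
  rw [← h1]
  rfl

theorem lam_good {f : (𝓞 K)[X]} {v : HeightOneSpectrum (𝓞 K)} (h : IsGood f v) (m : ℕ) :
    Pool.Agent.W5h26.AO.lam f v m = trace f v m := by
  have h' : Pool.Agent.W5h26.AO.Gd f v := h
  rw [Pool.Agent.W5h26.AO.lam_eq, if_pos h']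
  rfl

theorem lam_bad {f : (𝓞 K)[X]} {v : HeightOneSpectrum (𝓞 K)} (h : ¬ IsGood f v) (m : ℕ) :
    Pool.Agent.W5h26.AO.lam f v m = 0 := by
  have h' : ¬ Pool.Agent.W5h26.AO.Gd f v := h
  rw [Pool.Agent.W5h26.AO.lam_eq, if_neg h']

theorem traceSum_eq (f : (𝓞 K)[X]) (X : ℝ) :
    traceSum f X = ∑ v ∈ Pool.Agent.W5h26.CL.PX K X, -Pool.Agent.W5h26.AO.lam f v 1 /
      (nm v : ℝ) := by
  classical
  unfold traceSum
  rw [finsum_cond_eq_sum_of_cond_iff (t := (Pool.Agent.W5h26.CL.PX K X).filter (IsGood f)) _
    fun {v} _ => filter_iff f X v, Finset.sum_filter]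
  refine Finset.sum_congr rfl fun v _ => ?_
  split_ifs with h
  · rw [lam_good h]
    rfl
  · rw [lam_bad h, neg_zero, zero_div]

theorem log_pointProduct (h : Fin n → 𝓞 K) (X : ℝ) :
    Real.log (pointProduct (member a α h) X) = ∑ v ∈ Pool.Agent.W5h26.CL.PX K X,
      Pool.Agent.W5h26.CL.bl a α n v (Pool.Agent.W5h26.AO.rho v n h) := by
  classical
  unfold pointProduct
  rw [finprod_cond_eq_prod_of_cond_iff
    (t := (Pool.Agent.W5h26.CL.PX K X).filter (IsGood (member a α h))) _
    fun {v} _ => filter_iff _ X v, Real.log_prod, Finset.sum_filter]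
  · refine Finset.sum_congr rfl fun v _ => ?_
    unfold Pool.Agent.W5h26.CL.bl
    by_cases hg : IsGood (member a α h) v
    · rw [if_pos hg, if_pos ((good_iff h v).1 hg), ← Pool.Agent.W5h26.CL.lam_tq]
      have h1 : Pool.Agent.W5h26.AO.lam (Pool.Agent.W5h26.AO.mem a α h) v 1 =
          trace (member a α h) v 1 := lam_good hg 1
      rw [h1]
      unfold trace
      rw [pow_one]
      push_cast
      congr 2
      show _ = ((q v : ℝ) - ((q v : ℝ) - (points (member a α h) v 1 : ℝ)) + 1)
      ring
    · rw [if_neg hg, if_neg fun h1 => hg ((good_iff h v).2 h1)]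
  · intro v _
    have hq : (0 : ℝ) < q v := Pool.Agent.W5h26.AO.nm_pos v
    positivity

theorem log_jacobianProduct (h : Fin n → 𝓞 K) (X : ℝ) :
    Real.log (jacobianProduct (member a α h) X) = ∑ v ∈ Pool.Agent.W5h26.CL.PX K X,
      -Pool.Agent.W5h26.CL.jl a α n v (Pool.Agent.W5h26.AO.rho v n h) := by
  classical
  unfold jacobianProduct
  rw [finprod_cond_eq_prod_of_cond_iff
    (t := (Pool.Agent.W5h26.CL.PX K X).filter (IsGood (member a α h))) _
    fun {v} _ => filter_iff _ X v, Real.log_prod, Finset.sum_filter]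
  · refine Finset.sum_congr rfl fun v _ => ?_
    unfold Pool.Agent.W5h26.CL.jl
    simp only [← Pool.Agent.W5h26.CL.lam_tq]
    by_cases hg : IsGood (member a α h) v
    · rw [if_pos hg]
      unfold jacobianDensity
      rw [Real.log_exp]
      congr 1
      refine tsum_congr fun m => ?_
      have h1 : Pool.Agent.W5h26.AO.lam (Pool.Agent.W5h26.AO.mem a α h) v (m + 1) =
          trace (member a α h) v (m + 1) := lam_good hg (m + 1)
      rw [h1]
      rfl
    · rw [if_neg hg]
      have h1 : ∀ m, Pool.Agent.W5h26.AO.lam (Pool.Agent.W5h26.AO.mem a α h) v m = 0 :=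
        fun m => lam_bad hg m
      simp only [h1, zero_mul, zero_div, tsum_zero, neg_zero]
  · intro v _
    exact (Real.exp_pos _).ne'

theorem proportion_eq {κ : Type} [Fintype κ] [DecidableEq κ] (b : Module.Basis κ ℤ (𝓞 K))
    (N : ℕ) (P : (Fin n → 𝓞 K) → Prop) [DecidablePred P] :
    proportion b N P = (((Pool.Agent.W5h26.CL.bx b n N).filter P).card : ℝ) /
      ((Pool.Agent.W5h26.CL.bx b n N).card : ℝ) := by
  unfold proportion
  rw [Nat.subtype_card ((Pool.Agent.W5h26.CL.bx b n N).filter P) (fun h => by
      rw [Finset.mem_filter, Pool.Agent.W5h26.CL.mem_bx]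
      rfl),
    Nat.subtype_card (Pool.Agent.W5h26.CL.bx b n N) (fun h => by
      rw [Pool.Agent.W5h26.CL.mem_bx]
      rfl)]

theorem normal_of {κ : Type} [Fintype κ] [DecidableEq κ] {b : Module.Basis κ ℤ (𝓞 K)} {μ V : ℝ}
    {W U : ℕ → (Fin n → 𝓞 K) → ℝ} (hWU : ∀ N h, W N h = U N h)
    (h : Pool.Agent.W5h26.CL.IsNormal b fun N x =>
      (U N x - μ * Pool.Agent.W5h26.CL.LL N) / √(V * Pool.Agent.W5h26.CL.LL N)) :
    AsymptoticallyNormal b μ V W := by
  classical
  intro t
  refine (h t).congr fun N => ?_
  rw [proportion_eq]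
  simp only [hWU]
  congr

/-- The law of large numbers which follows from the central limit theorem. -/
theorem law_of {κ : Type} [Fintype κ] [DecidableEq κ] {b : Module.Basis κ ℤ (𝓞 K)} {μ V : ℝ}
    (hV : 0 < V) {W : ℕ → (Fin n → 𝓞 K) → ℝ} (h : AsymptoticallyNormal b μ V W) {ε : ℝ}
    (hε : 0 < ε) :
    Tendsto (fun N : ℕ => proportion b N fun h =>
      |W N h / Real.log (Real.log N) - μ| < ε) atTop (𝓝 1) := by
  classical
  have hne : ∀ N, (0 : ℝ) < ((Pool.Agent.W5h26.CL.bx b n N).card : ℝ) := fun N => by
    exact_mod_cast Finset.card_pos.2 (Pool.Agent.W5h26.CL.bx_nonempty b n N)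
  have hle : ∀ N, proportion b N (fun h => |W N h / Real.log (Real.log N) - μ| < ε) ≤ 1 := by
    intro N
    rw [proportion_eq, div_le_one (hne N)]
    exact_mod_cast Finset.card_filter_le _ _
  rw [Metric.tendsto_nhds]
  intro δ hδ
  set Φ : ℝ → ℝ := fun t => (ProbabilityTheory.gaussianReal 0 1).real (Set.Iic t) with hΦ
  have h1 : Tendsto Φ atTop (𝓝 1) :=
    (ProbabilityTheory.tendsto_cdf_atTop (ProbabilityTheory.gaussianReal 0 1)).congr
      fun x => ProbabilityTheory.cdf_eq_real _ x
  have h2 : Tendsto Φ atBot (𝓝 0) :=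
    (ProbabilityTheory.tendsto_cdf_atBot (ProbabilityTheory.gaussianReal 0 1)).congr
      fun x => ProbabilityTheory.cdf_eq_real _ x
  obtain ⟨T, hT1, hT2, hT0⟩ := ((h1.eventually (lt_mem_nhds (show 1 - δ / 4 < 1 by linarith))).and
    (((h2.comp tendsto_neg_atTop_atBot).eventually (gt_mem_nhds (show (0 : ℝ) < δ / 4 by
      linarith))).and (eventually_gt_atTop 0))).exists
  have h3 : Tendsto (fun N : ℕ => √(Real.log (Real.log N))) atTop atTop :=
    Real.tendsto_sqrt_atTop.comp Pool.Agent.W5h26.CL.LL_tendsto
  filter_upwards [(h T).eventually (lt_mem_nhds (show Φ T - δ / 4 < Φ T by linarith)),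
    (h (-T)).eventually (gt_mem_nhds (show Φ (-T) < Φ (-T) + δ / 4 by linarith)),
    h3.eventually (eventually_gt_atTop (T * √V / ε)),
    Pool.Agent.W5h26.CL.LL_tendsto.eventually (eventually_gt_atTop 0)] with N e1 e2 e3 e4
  have e4' : 0 < Real.log (Real.log N) := e4
  set L : ℝ := Real.log (Real.log N) with hL
  have hs : 0 < √L := Real.sqrt_pos.2 e4'
  have hv : 0 < √V := Real.sqrt_pos.2 hV
  have hss : √L * √L = L := Real.mul_self_sqrt e4'.le
  have hvl : √(V * L) = √V * √L := Real.sqrt_mul hV.le L
  rw [div_lt_iff₀ hε] at e3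
  have e5 : proportion b N (fun h => (W N h - μ * L) / √(V * L) ≤ T) ≤
      proportion b N (fun h => |W N h / L - μ| < ε) +
        proportion b N (fun h => (W N h - μ * L) / √(V * L) ≤ -T) := by
    rw [proportion_eq, proportion_eq, proportion_eq, ← add_div]
    refine div_le_div_of_nonneg_right ?_ (hne N).le
    rw [← Nat.cast_add, Nat.cast_le]
    refine le_trans (Finset.card_le_card ?_) (Finset.card_union_le _ _)
    intro h hh
    rw [Finset.mem_filter] at hh
    rw [Finset.mem_union, Finset.mem_filter, Finset.mem_filter]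
    by_cases h4 : (W N h - μ * L) / √(V * L) ≤ -T
    · exact Or.inr ⟨hh.1, h4⟩
    · refine Or.inl ⟨hh.1, ?_⟩
      push Not at h4
      have h5 : |(W N h - μ * L) / √(V * L)| ≤ T := abs_le.2 ⟨h4.le, hh.2⟩
      have h6 : W N h / L - μ = (W N h - μ * L) / √(V * L) * √V / √L := by
        rw [hvl]
        have : W N h / L - μ = (W N h - μ * L) / (√L * √L) := by
          rw [hss]
          field_simp
        rw [this]
        field_simp
      rw [h6, abs_div, abs_of_pos hs, abs_mul, abs_of_pos hv, div_lt_iff₀ hs, mul_comm ε]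
      exact (mul_le_mul_of_nonneg_right h5 hv.le).trans_lt e3
  have e6 := hle N
  have hT2' : Φ (-T) < δ / 4 := hT2
  rw [Real.dist_eq, abs_lt]
  constructor <;> linarith

/-- the constant in the variance -/
theorem meanSquare_eq (K L F : Type) [Field K] [NumberField K] [Field L] [NumberField L] [Field F]
    [NumberField F] [Algebra K L] [Algebra L F] [Algebra K F] [IsScalarTower K L F] [IsGalois K F]
    [Fintype (F ≃ₐ[K] F)] : meanSquare K L F = Pool.Agent.W5h26.AC.mu L F (F ≃ₐ[K] F) := by
  unfold meanSquare Pool.Agent.W5h26.AC.mu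
  rw [finsum_eq_sum_of_fintype]
  congr 1
  refine Finset.sum_congr rfl fun σ _ => ?_
  rw [Pool.Agent.W5h26.AC.emb K L F σ]

/-- the constant in the mean value -/
theorem halfInvolutions_eq (K L F : Type) [Field K] [NumberField K] [Field L] [NumberField L]
    [Field F] [NumberField F] [Algebra K L] [Algebra L F] [Algebra K F] [IsScalarTower K L F]
    [IsGalois K F] [Fintype (F ≃ₐ[K] F)] :
    halfInvolutions K L F = 1 / 2 + Pool.Agent.W5h26.AC.nu2 L F (F ≃ₐ[K] F) := by
  unfold halfInvolutions
  rw [Pool.Agent.W5h26.AC.nu2_half, Pool.Agent.W5h26.AN.card_sq, Pool.Agent.W5h26.AN.card_HH]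

end proof

/-- **The central limit theorem over a finite extension.** Let `L/K` be an extension of number fields,
`F/K` a Galois extension which contains `L`, `n + 2 + r = 2 g + 1`, `a` a monic
polynomial of degree `2 g + 1` over the integers of `K`, and `a(α_j) = y_j²`, `1 ≤ j ≤ r`, with
different `α_j` and with `y_j ≠ 0`. Let `b` be a basis of the integers of `K` over `ℤ`, and let
`0 < c < 1/3`. (For `g = 1`, `r = 0` the curves `y² = f_h(x)` are all curves
`y² = x³ + h_2 x² + h_1 x + h_0`; for `g = 1`, `r = 1` they are all those which contain `(α, y)`.)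

Let `A = #{σ ∈ Gal(F/K) : σ² = 1 on L} / (2 [F : L])`, and let `V` be the mean value, over the elements `σ` of
`Gal(F/K)`, of the square of the number of the embeddings of `L` in `F` over `K` which are fixed by `σ`.

(1) The polynomials `f_h = a + (h_0 + … + h_{n+1} X ^ (n+1)) ∏ (X - α_j)` are all the monic polynomials of
degree `2 g + 1` over the integers of `K` with `f(α_j) = y_j²` for all `j`.

(2) For every field `E ⊇ K` (for example `E = L`) the curve `Y² = f_h(X)` over `E(w, ξ_1, …, ξ_{n+1})`,
for the generic `h = (w, ξ_1, …, ξ_{n+1})`, is smooth of genus `g`, and the group of the rational points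
of its Jacobian is free of rank `r`.

(3) The logarithm of the product `∏ N_w / q_w` over the primes `w` of `L` of good reduction of `f_h` with
`q_w ≤ N ^ c` is asymptotically normal on the `h` of height at most `N`, with mean value
`(r + A) log log N` and variance `V log log N`. For `g = 1` this is the product of Birch and
Swinnerton-Dyer over `L`. In particular, for every `ε > 0` the proportion of the `h` of height at most
`N` for which the product is between `(log N) ^ (r + A - ε)` and `(log N) ^ (r + A + ε)` tends to `1`.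

(4) The same holds for the product `∏ #J(k_w) / q_w ^ g` for the Jacobian.

(5) The sum of `- a_w / q_w` over the primes `w` of `L` of good reduction with `q_w ≤ N ^ c` is
asymptotically normal with mean value `(r + A - 1/2) log log N` and variance `V log log N`. -/
theorem result (K L F : Type) [Field K] [NumberField K] [Field L] [NumberField L] [Field F]
    [NumberField F] [Algebra K L] [Algebra L F] [Algebra K F] [IsScalarTower K L F] [IsGalois K F]
    (g r n : ℕ) (hn : n + 2 + r = 2 * g + 1)
    (a : (𝓞 K)[X]) (ha : a.Monic) (hd : a.natDegree = 2 * g + 1) (α y : Fin r → 𝓞 K)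
    (hα : Function.Injective α) (hy : ∀ j, a.eval (α j) = y j ^ 2) (hy0 : ∀ j, y j ≠ 0)
    (κ : Type) [Fintype κ] (b : Module.Basis κ ℤ (𝓞 K)) (c : ℝ) (hc : 0 < c) (hc3 : c < 1 / 3) :
    (∀ f : (𝓞 K)[X], (f.Monic ∧ f.natDegree = 2 * g + 1 ∧ ∀ j, f.eval (α j) = y j ^ 2) ↔
      ∃ h : Fin (n + 2) → 𝓞 K, f = member a α h) ∧
    (∀ (E : Type) [Field E] [Algebra K E] (M : Type) [Field M] [Algebra E M] (ξ : Fin (n + 1) → M),
      AlgebraicIndependent E ξ → IntermediateField.adjoin E (Set.range ξ) = ⊤ →
        IsSmoothCurve g (generic a α E ξ) ∧ JacobianFreeOfRank (generic a α E ξ) r) ∧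
    AsymptoticallyNormal b (r + halfInvolutions K L F) (meanSquare K L F)
      (fun N (h : Fin (n + 2) → 𝓞 K) => Real.log
        (pointProduct ((member a α h).map (algebraMap (𝓞 K) (𝓞 L))) ((N : ℝ) ^ c))) ∧
    (∀ ε : ℝ, 0 < ε → Tendsto (fun N : ℕ => proportion b N fun h : Fin (n + 2) → 𝓞 K =>
      |Real.log (pointProduct ((member a α h).map (algebraMap (𝓞 K) (𝓞 L))) ((N : ℝ) ^ c)) /
        Real.log (Real.log N) - (r + halfInvolutions K L F)| < ε) atTop (𝓝 1)) ∧
    AsymptoticallyNormal b (r + halfInvolutions K L F) (meanSquare K L F)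
      (fun N (h : Fin (n + 2) → 𝓞 K) => Real.log
        (jacobianProduct ((member a α h).map (algebraMap (𝓞 K) (𝓞 L))) ((N : ℝ) ^ c))) ∧
    AsymptoticallyNormal b (r + halfInvolutions K L F - 1 / 2) (meanSquare K L F)
      (fun N (h : Fin (n + 2) → 𝓞 K) =>
        traceSum ((member a α h).map (algebraMap (𝓞 K) (𝓞 L))) ((N : ℝ) ^ c)) := by
  classical
  have : Fintype (F ≃ₐ[K] F) := Fintype.ofFinite _
  have hsq := Pool.Agent.W5h26.AC.sq Pool.Agent.W5h26.AC.mj Pool.Agent.W5h26.AC.phi_eq
  have hn2 := Pool.Agent.W5h26.AC.n2 Pool.Agent.W5h26.AC.mj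
  have hmem : ∀ h : Fin (n + 2) → 𝓞 K, (member a α h).map (algebraMap (𝓞 K) (𝓞 L)) =
      member (Pool.Agent.W5h26.AG.bc K L a) (Pool.Agent.W5h26.AC.ext K L α)
        (Pool.Agent.W5h26.AC.ext K L h) := fun h => (Pool.Agent.W5h26.AC.mem_map K L a α h).symm
  have hV := meanSquare_eq K L F
  have hA := halfInvolutions_eq K L F
  have hV0 : 0 < meanSquare K L F := by
    rw [hV]
    exact Pool.Agent.W5h26.AC.mu_pos
  have hpt : AsymptoticallyNormal b (r + halfInvolutions K L F) (meanSquare K L F)
      (fun N (h : Fin (n + 2) → 𝓞 K) => Real.log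
        (pointProduct ((member a α h).map (algebraMap (𝓞 K) (𝓞 L))) ((N : ℝ) ^ c))) := by
    rw [hV, hA, ← add_assoc]
    exact normal_of (fun N h => by rw [hmem]; exact log_pointProduct _ _)
      (Pool.Agent.W5h26.AC.all_points F (F ≃ₐ[K] F) Pool.Agent.W5h26.AC.pb
        Pool.Agent.W5h26.AC.f1_eq hsq hn2 ha hd hn hα hy hy0 hc hc3)
  refine ⟨fun f => ?_, ?_, hpt, fun ε hε => law_of hV0 hpt hε, ?_, ?_⟩
  · have h1 := Pool.Agent.W5h26.AO.mem_iff (f := f) ha hd hn hα
    simp only [hy] at h1
    exact h1
  · intro E _ _ M _ _ ξ hξ htop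
    have : CharZero E := charZero_of_injective_algebraMap (algebraMap K E).injective
    let _ : Algebra (𝓞 K) E := ((algebraMap K E).comp (algebraMap (𝓞 K) K)).toAlgebra
    have hinj : Function.Injective (algebraMap (𝓞 K) E) :=
      (algebraMap K E).injective.comp (IsFractionRing.injective (𝓞 K) K)
    have : FaithfulSMul (𝓞 K) E := (faithfulSMul_iff_algebraMap_injective _ _).2 hinj
    obtain ⟨h1, h2, h3, h4⟩ := Pool.Agent.W5h26.AO.gen_class (E := E) (M := M) ha hd hn hα hy hy0
      hξ htop
    exact ⟨⟨h1, h2, h3⟩, h4⟩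
  · rw [hV, hA, ← add_assoc]
    exact normal_of (fun N h => by rw [hmem]; exact log_jacobianProduct _ _)
      (Pool.Agent.W5h26.AC.all_jac F (F ≃ₐ[K] F) Pool.Agent.W5h26.AC.pb
        Pool.Agent.W5h26.AC.f1_eq hsq hn2 ha hd hn hα hy hy0 hc hc3)
  · have e : (r : ℝ) + halfInvolutions K L F - 1 / 2 =
        r + 0 / 2 + Pool.Agent.W5h26.AC.nu2 L F (F ≃ₐ[K] F) := by
      rw [hA]
      ring
    rw [hV, e]
    exact normal_of (fun N h => by rw [hmem]; exact traceSum_eq _ _)
      (Pool.Agent.W5h26.AC.all_trace F (F ≃ₐ[K] F) Pool.Agent.W5h26.AC.pb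
        Pool.Agent.W5h26.AC.f1_eq hsq hn2 ha hd hn hα hy hy0 hc hc3)

end Pool.Agent.Results.MP_cd906c_nt.CentralLimitExtensions
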