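import Pool.Agent.W5h26.ML.Curve

/-!
# The two inequalities `ord ≤ rank`, `ord ≥ rank` and one-sided mean laws over number fields

Let `K` be any number field, `E : y² = x³ + a x + b` an elliptic curve over `K` (`a, b` integers of `K`), and let
`P(x) = ∏_{q_v ≤ x} #E(k_v)/q_v` be the product of Birch and Swinnerton-Dyer over the places `v` of `K` that do
not divide `6 (4a³ + 27b²)`, in which all the places of norm at most `x` are taken, whatever their degree. Let
the `L`-series (the Euler factors at the other places are removed) have a continuation `F` that is holomorphic for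
`Re s > 1` and at `s = 1`, and let `r = ord_{s=1} F`. For real `ρ` consider the means

`M⁺_ρ(Y) = (log Y)⁻¹ ∫_e^Y (log P(y) - ρ log log y)⁺ dy/y`, `M⁻_ρ(Y) = (log Y)⁻¹ ∫_e^Y (log P(y) - ρ log log y)⁻ dy/y`.

It is shown, with NO hypothesis on the growth of `F`:

* if `M⁺_ρ(Y)` is bounded, then `F` has no zeros with `Re s > 1`, real or not, and `r ≤ ρ`;
* if `M⁻_ρ(Y)` is bounded and `F` has no REAL zeros `s > 1`, then `F` has no zeros with `Re s > 1` and `r ≥ ρ`;
* so if both are bounded for `ρ = rank E(K)`, then Q1 holds for `E/K` (and `F` has no zeros with `Re s > 1`).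

If `F` has polynomial growth in a half-plane `Re s > 1 - η`, the converses hold:

* `M⁺_ρ` is bounded if and only if `F` has no zeros with `Re s > 1` and `r ≤ ρ`;
* if there are no real zeros `> 1`: `M⁻_ρ` is bounded if and only if `F` has no zeros with `Re s > 1` and `r ≥ ρ`;
* both means are bounded for `ρ = rank E(K)` if and only if `ord_{s=1} F = rank E(K)` and `F` has no zeros with
  `Re s > 1`; then moreover `|log P(y) - r log log y| ≤ M` outside a set of finite logarithmic measure.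

So each of the two inequalities of the rank conjecture is, together with the Riemann hypothesis, equivalent to
a one-sided statement about the original products.

The proof. Let `D(u)` be the sum over the prime powers of norm at most `e^u`. (1) `log P(e^u) - D(u)` is bounded:
only Hasse's bound and the simple pole of the Dedekind zeta function are used. (2) Upper bounds: the Laplace
transform of the negative part of `D(u) - ρ log u` is, up to a function which is holomorphic for `Re s > 0`,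
`log F(1 + s) / s`, so by Landau's theorem on transforms of nonnegative functions it converges up to the largest
real zero; at a real zero `log F → -∞`, but the transform is `≥ 0`. So there is no real zero, the transforms of
both parts converge for `Re s > 0`, and there are no zeros at all. The behaviour as `s → 0` gives `r ≤ ρ`.
(3) Lower bounds: the same without the second step. (4) The converse under polynomial growth: the mean square
theorem of helper270 (`Pool/Agent/TH270/MS`) for general systems of primes.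
-/

set_option autoImplicit false

namespace Pool.Agent.Results.MP_cd906c_nt.OneSidedMeanLaws

open Filter Topology MeasureTheory NumberField IsDedekindDomain

variable {K : Type} [Field K] [NumberField K]

/-- `q_v`, the number of elements of the residue field `k_v`. -/
noncomputable def q (v : HeightOneSpectrum (𝓞 K)) : ℕ := Ideal.absNorm v.asIdeal

/-- The place `v` does not divide `6 (4a³ + 27b²)`. -/
def Good (a b : 𝓞 K) (v : HeightOneSpectrum (𝓞 K)) : Prop :=
  6 * (4 * a ^ 3 + 27 * b ^ 2) ∉ v.asIdeal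

/-- `#E(k_v)` with the point at infinity, for `E : y² = x³ + a x + b`. -/
noncomputable def numPoints (a b : 𝓞 K) (v : HeightOneSpectrum (𝓞 K)) : ℕ :=
  Nat.card {P : (𝓞 K ⧸ v.asIdeal) × (𝓞 K ⧸ v.asIdeal) // P.2 ^ 2 =
    P.1 ^ 3 + Ideal.Quotient.mk v.asIdeal a * P.1 + Ideal.Quotient.mk v.asIdeal b} + 1

/-- The product of Birch and Swinnerton-Dyer `P(x) = ∏_{v good, q_v ≤ x} #E(k_v) / q_v`. -/
noncomputable def P (a b : 𝓞 K) (x : ℝ) : ℝ :=
  ∏ᶠ (v : HeightOneSpectrum (𝓞 K)) (_ : Good a b v ∧ (q v : ℝ) ≤ x), (numPoints a b v : ℝ) / q v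

/-- The Euler factor `(1 - a_v q_v^{-s} + q_v^{1-2s})⁻¹`, `a_v = q_v + 1 - #E(k_v)`. -/
noncomputable def factor (a b : 𝓞 K) (s : ℂ) (v : HeightOneSpectrum (𝓞 K)) : ℂ :=
  (1 - ((q v : ℂ) + 1 - numPoints a b v) * (q v : ℂ) ^ (-s) + (q v : ℂ) ^ (1 - 2 * s))⁻¹

/-- `F` continues the `L`-series of `E/K` (without the Euler factors at the places dividing `6 (4a³ + 27b²)`) to
a function that is holomorphic for `Re s > 1` and at `s = 1`. -/
structure IsLSeries (a b : 𝓞 K) (F : ℂ → ℂ) : Prop where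
  diff : ∀ s : ℂ, 1 < s.re → DifferentiableAt ℂ F s
  one : AnalyticAt ℂ F 1
  prod : ∀ s : ℂ, 3 / 2 < s.re → HasProd (fun v : {v // Good a b v} => factor a b s v.1) (F s)

/-- The rank of `E(K)`. -/
noncomputable def rank (a b : 𝓞 K) : ℕ :=
  open scoped Classical in
  Module.finrank ℤ
    (WeierstrassCurve.Affine.Point
      (WeierstrassCurve.toAffine
        ({ a₁ := 0, a₂ := 0, a₃ := 0, a₄ := (a : K), a₆ := (b : K) } : WeierstrassCurve K)))

/-- `F` has no zeros with `Re s > 1`. -/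
def NoZeros (F : ℂ → ℂ) : Prop := ∀ s : ℂ, 1 < s.re → F s ≠ 0

/-- `F` has no real zeros `> 1`. -/
def NoRealZeros (F : ℂ → ℂ) : Prop := ∀ x : ℝ, 1 < x → F x ≠ 0

/-- `F` has polynomial growth in a half-plane `Re s > 1 - η`, `η > 0`. -/
def PolyGrowth (F : ℂ → ℂ) : Prop :=
  ∃ (η C : ℝ) (κ : ℕ), 0 < η ∧ ∀ s : ℂ, 1 - η < s.re →
    DifferentiableAt ℂ F s ∧ ‖F s‖ ≤ C * (1 + ‖s‖) ^ κ

/-- `∫_e^Y (log P(y) - ρ log log y)⁺ dy/y ≤ B log Y` for large `Y` -/
def UpperLaw (a b : 𝓞 K) (ρ : ℝ) : Prop :=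
  ∃ B : ℝ, ∀ᶠ Y : ℝ in atTop, ∫ y in Real.exp 1..Y,
    max (Real.log (P a b y) - ρ * Real.log (Real.log y)) 0 / y ≤ B * Real.log Y

/-- `∫_e^Y (ρ log log y - log P(y))⁺ dy/y ≤ B log Y` for large `Y` -/
def LowerLaw (a b : 𝓞 K) (ρ : ℝ) : Prop :=
  ∃ B : ℝ, ∀ᶠ Y : ℝ in atTop, ∫ y in Real.exp 1..Y,
    max (ρ * Real.log (Real.log y) - Real.log (P a b y)) 0 / y ≤ B * Real.log Y

/-- `∫_e^Y |log P(y) - ρ log log y| dy/y ≤ B log Y` for large `Y` -/
def MeanLaw (a b : 𝓞 K) (ρ : ℝ) : Prop :=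
  ∃ B : ℝ, ∀ᶠ Y : ℝ in atTop, ∫ y in Real.exp 1..Y,
    |Real.log (P a b y) - ρ * Real.log (Real.log y)| / y ≤ B * Real.log Y

/-! ### Translation to the definitions of the imported files -/

variable {a b : 𝓞 K}

open Pool.Agent.W5h26.ML Pool.Agent.TH942.ES Pool.Agent.TH270.MS

theorem P_eq (x : ℝ) : P a b x = PC a b x := by
  unfold P PC numPoints
  refine finprod_congr fun v => ?_
  refine finprod_congr fun _ => ?_
  push_cast
  rfl

theorem factor_eq (s : ℂ) (v : HeightOneSpectrum (𝓞 K)) : factor a b s v = efV a b v s := by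
  have h1 : (q v : ℂ) + 1 - (numPoints a b v : ℂ) = (q v : ℂ) - ptsV a b v := by
    unfold numPoints ptsV
    push_cast
    ring
  unfold factor efV
  rw [h1]
  rfl

theorem log_P (x : ℝ) : Real.log (P a b x) = LP (NC a b) (alV a b) x := by
  rw [P_eq, log_PC]

theorem upper_iff (ρ : ℝ) : UpperLaw a b ρ ↔ Law fun y => max (dev (NC a b) (alV a b) ρ y) 0 := by
  unfold UpperLaw Law dev
  simp only [log_P]

theorem lower_iff (ρ : ℝ) : LowerLaw a b ρ ↔ Law fun y => max (-dev (NC a b) (alV a b) ρ y) 0 := by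
  unfold LowerLaw Law dev
  simp only [log_P, neg_sub]

theorem mean_iff (ρ : ℝ) : MeanLaw a b ρ ↔ Law fun y => |dev (NC a b) (alV a b) ρ y| := by
  unfold MeanLaw Law dev
  simp only [log_P]

theorem noZeros_iff (F : ℂ → ℂ) : NoZeros F ↔ ∀ s : ℂ, 0 < s.re → F (1 + s) ≠ 0 := by
  constructor
  · intro h s hs
    exact h _ (by rw [Complex.add_re, Complex.one_re]; linarith)
  · intro h s hs
    have := h (s - 1) (by rw [Complex.sub_re, Complex.one_re]; linarith)
    rwa [add_sub_cancel] at this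

theorem noReal_iff (F : ℂ → ℂ) : NoRealZeros F ↔ ∀ x : ℝ, 0 < x → F (1 + x) ≠ 0 := by
  constructor
  · intro h x hx
    have := h (1 + x) (by linarith)
    rwa [Complex.ofReal_add, Complex.ofReal_one] at this
  · intro h x hx
    have := h (x - 1) (by linarith)
    rwa [Complex.ofReal_sub, Complex.ofReal_one, add_sub_cancel] at this

/-- **The inequalities `ord ≤ ρ` and `ord ≥ ρ` and the one-sided mean laws of the products of Birch and
Swinnerton-Dyer, over all number fields.** -/
theorem result (a b : 𝓞 K) (_hΔ : 4 * a ^ 3 + 27 * b ^ 2 ≠ 0) (F : ℂ → ℂ) (hF : IsLSeries a b F) :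
    ∃ r : ℕ, analyticOrderAt F 1 = r ∧
      (∀ ρ : ℝ, (UpperLaw a b ρ → NoZeros F ∧ (r : ℝ) ≤ ρ) ∧
        (LowerLaw a b ρ → NoRealZeros F → NoZeros F ∧ ρ ≤ r)) ∧
      (MeanLaw a b (rank a b) → analyticOrderAt F 1 = (rank a b : ℕ∞) ∧ NoZeros F) ∧
      (PolyGrowth F →
        (∀ ρ : ℝ, (UpperLaw a b ρ ↔ NoZeros F ∧ (r : ℝ) ≤ ρ) ∧
          (NoRealZeros F → (LowerLaw a b ρ ↔ NoZeros F ∧ ρ ≤ r))) ∧
        (MeanLaw a b (rank a b) ↔ analyticOrderAt F 1 = (rank a b : ℕ∞) ∧ NoZeros F) ∧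
        (NoZeros F → ∃ M : ℝ, ∫⁻ y in {y : ℝ | Real.exp 1 < y ∧
          M < |Real.log (P a b y) - r * Real.log (Real.log y)|}, ENNReal.ofReal (1 / y) < ⊤)) := by
  have H : Mh (NC a b) (alV a b) (fun s => F (1 + s)) 0 :=
    curve_mh hF.diff hF.one fun s hs => by
      have := hF.prod s hs
      simp only [factor_eq] at this
      exact this
  obtain ⟨-, -, r, -, hr, -⟩ := H.hy
  have hr' : analyticOrderAt F 1 = r := (order_shift hF.one r).1 hr
  have hup : ∀ ρ : ℝ, UpperLaw a b ρ → NoZeros F ∧ (r : ℝ) ≤ ρ := by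
    intro ρ h
    obtain ⟨h1, h2⟩ := H.upper ((upper_iff ρ).1 h)
    have h3 := h2 r hr
    rw [Nat.cast_zero, zero_add] at h3
    exact ⟨(noZeros_iff F).2 h1, h3⟩
  have hlow : ∀ ρ : ℝ, LowerLaw a b ρ → NoRealZeros F → NoZeros F ∧ ρ ≤ r := by
    intro ρ h h0
    obtain ⟨h1, h2⟩ := H.lower ((lower_iff ρ).1 h) ((noReal_iff F).1 h0)
    have h3 := h2 r hr
    rw [Nat.cast_zero, zero_add] at h3
    exact ⟨(noZeros_iff F).2 h1, h3⟩
  have hmean : MeanLaw a b (rank a b) → analyticOrderAt F 1 = (rank a b : ℕ∞) ∧ NoZeros F := by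
    intro h
    obtain ⟨h1, h2⟩ := (law_abs (dev_bm H.E _)).1 ((mean_iff _).1 h)
    obtain ⟨h3, h4⟩ := hup _ ((upper_iff _).2 h1)
    obtain ⟨-, h5⟩ := hlow _ ((lower_iff _).2 h2) fun x hx => h3 x (by rwa [Complex.ofReal_re])
    have h6 : r = rank a b := by exact_mod_cast le_antisymm h4 h5
    exact ⟨by rw [hr', h6], h3⟩
  refine ⟨r, hr', fun ρ => ⟨hup ρ, hlow ρ⟩, hmean, ?_⟩
  rintro ⟨η, C, κ, hη, hg⟩
  have Hc : Mc (NC a b) (alV a b) (fun s => F (1 + s)) (fun s => F (1 + s)) 0 κ η (|C| * 2 ^ κ) :=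
    curve_mc hη (fun s hs => (hg s hs).1) (fun s hs => (hg s hs).2) fun s hs => by
      have := hF.prod s hs
      simp only [factor_eq] at this
      exact this
  have key := fun ρ => laws Hc hr ρ
  simp only [Nat.cast_zero, zero_add] at key
  refine ⟨fun ρ => ⟨?_, fun h0 => ?_⟩, ⟨hmean, ?_⟩, ?_⟩
  · rw [upper_iff, (key ρ).1, noZeros_iff]
  · rw [lower_iff, (key ρ).2.1 ((noReal_iff F).1 h0), noZeros_iff]
  · rintro ⟨h1, h2⟩
    rw [mean_iff, (key _).2.2]
    rw [hr'] at h1
    exact ⟨(noZeros_iff F).1 h2, by exact_mod_cast h1⟩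
  · intro h
    obtain ⟨M, hM⟩ := (law_of Hc hr ((noZeros_iff F).1 h)).2
    refine ⟨M, ?_⟩
    simp only [Nat.cast_zero, sub_zero] at hM
    have e : {y : ℝ | Real.exp 1 < y ∧ M < |Real.log (P a b y) - r * Real.log (Real.log y)|} =
        {y : ℝ | Real.exp 1 < y ∧ M < |dev (NC a b) (alV a b) (r : ℝ) y|} := by
      ext y
      simp only [Set.mem_ofPred_eq, log_P]
      rfl
    rw [e]
    exact hM

end Pool.Agent.Results.MP_cd906c_nt.OneSidedMeanLaws
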